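import Mathlib

/-!
# Polynomials under the pointwise order on `[s, t]` are not universal

For all reals `1 < s < t` the polynomials with coefficients in `{0, 1} ∪ ℚ_{≥ 2}`, ordered pointwise
on `[s, t]`, are not universal for countable preorders.

Everything below a fixed polynomial `u` has bounded degree `< D`, because every nonzero coefficient is
at least `1` and `s > 1`; and the Boolean lattice with `D + 1` atoms does not embed in the
polynomials of degree `< D` with the pointwise order: at a point `x_i` witnessing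
`{i} ≰ complement of {i}` all sets which contain `i` are strictly above all sets which do not, so that
two suitable complementary sets have a difference with `D` sign changes.
-/

set_option autoImplicit false

open Polynomial

namespace Pool.Agent.Results.MP_387adc_co.NotUniversal

/-- The polynomials whose coefficients all lie in `{0, 1} ∪ ℚ_{≥ 2}`. -/
def PolyP : Type :=
  {p : ℝ[X] // ∀ i : ℕ, p.coeff i = 0 ∨ p.coeff i = 1 ∨ ∃ q : ℚ, 2 ≤ q ∧ p.coeff i = (q : ℝ)}

/-- The pointwise order on `[s, t]`. -/
def LeP (s t : ℝ) (p q : PolyP) : Prop := ∀ x ∈ Set.Icc s t, p.1.eval x ≤ q.1.eval x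

/-- `(PolyP, LeP s t)` is universal for countable preorders: every countable preorder admits an
order-embedding into it. -/
def Universal (s t : ℝ) : Prop :=
  ∀ (A : Type) [Countable A] [Preorder A], ∃ f : A → PolyP, ∀ a b : A, a ≤ b ↔ LeP s t (f a) (f b)

theorem coeff_nonneg (p : PolyP) (i : ℕ) : 0 ≤ p.1.coeff i := by
  rcases p.2 i with h | h | ⟨q, hq, h⟩
  · rw [h]
  · rw [h]; norm_num
  · rw [h]
    have : (2 : ℝ) ≤ q := by exact_mod_cast hq
    linarith

theorem one_le_coeff (p : PolyP) (i : ℕ) (hi : p.1.coeff i ≠ 0) : 1 ≤ p.1.coeff i := by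
  rcases p.2 i with h | h | ⟨q, hq, h⟩
  · exact absurd h hi
  · rw [h]
  · rw [h]
    have : (2 : ℝ) ≤ q := by exact_mod_cast hq
    linarith

/-- the value at `s > 1` is at least `s ^ deg` -/
theorem pow_le_eval (p : PolyP) (hp : p.1 ≠ 0) (s : ℝ) (hs : 1 < s) :
    s ^ p.1.natDegree ≤ p.1.eval s := by
  rw [eval_eq_sum_range]
  have h1 : (1 : ℝ) ≤ p.1.coeff p.1.natDegree :=
    one_le_coeff p _ (by rwa [coeff_natDegree, leadingCoeff_ne_zero])
  have h2 : 0 ≤ s := by linarith
  have h3 : p.1.coeff p.1.natDegree * s ^ p.1.natDegree ≤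
      ∑ i ∈ Finset.range (p.1.natDegree + 1), p.1.coeff i * s ^ i :=
    Finset.single_le_sum (f := fun i => p.1.coeff i * s ^ i)
      (fun i _ => mul_nonneg (coeff_nonneg p i) (by positivity))
      (Finset.self_mem_range_succ _)
  have h4 : (0 : ℝ) ≤ s ^ p.1.natDegree := by positivity
  nlinarith

theorem natDegree_lt (s t : ℝ) (hs : 1 < s) (hst : s < t) (u : PolyP) (D : ℕ)
    (hD : u.1.eval s < s ^ D) (hD0 : 0 < D) (p : PolyP) (hp : LeP s t p u) :
    p.1.natDegree < D := by
  by_cases h0 : p.1 = 0
  · rw [h0, natDegree_zero]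
    exact hD0
  · by_contra hcon
    push Not at hcon
    have h1 := pow_le_eval p h0 s hs
    have h2 := hp s ⟨le_refl s, hst.le⟩
    have h3 : s ^ D ≤ s ^ p.1.natDegree := pow_le_pow_right₀ hs.le hcon
    linarith

/-- `n + 1` strictly increasing points with alternating signs force the degree to be at least `n`. -/
theorem degree_of_alternating (g : ℝ[X]) (n : ℕ) (y : ℕ → ℝ)
    (hy : ∀ j, j < n → y j < y (j + 1))
    (hsign : ∀ j, j ≤ n → 0 < (-1 : ℝ) ^ j * g.eval (y j)) : n ≤ g.natDegree := by
  have hg : g ≠ 0 := by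
    rintro rfl
    have := hsign 0 (Nat.zero_le n)
    simp at this
  have hroot : ∀ j : Fin n, ∃ c : ℝ, y j < c ∧ c < y (j + 1) ∧ g.eval c = 0 := by
    intro j
    have h1 := hsign j j.2.le
    have h2 := hsign (j + 1) j.2
    have hlt := hy j j.2
    have hcont : ContinuousOn (fun x => (-1 : ℝ) ^ (j : ℕ) * g.eval x) (Set.Icc (y j) (y (j + 1))) := by
      apply Continuous.continuousOn
      exact continuous_const.mul g.continuous
    have h3 : (-1 : ℝ) ^ (j : ℕ) * g.eval (y (j + 1)) < 0 := by
      rw [pow_succ] at h2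
      linarith
    have h4 := intermediate_value_Ioo' hlt.le hcont
    obtain ⟨c, hc, hc0⟩ := h4 ⟨h3, h1⟩
    refine ⟨c, hc.1, hc.2, ?_⟩
    have h5 : (-1 : ℝ) ^ (j : ℕ) ≠ 0 := by positivity
    exact (mul_eq_zero.1 hc0).resolve_left h5
  choose c hc1 hc2 hc3 using hroot
  have hmono : ∀ a b : ℕ, a ≤ b → b ≤ n → y a ≤ y b := by
    intro a b hab
    induction b, hab using Nat.le_induction with
    | base => intro _; exact le_rfl
    | succ b _ ih =>
      intro hb
      exact (ih (by omega)).trans (hy b (by omega)).le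
  have hinj : Function.Injective c := by
    intro a b hab
    by_contra hne
    have hne' : (a : ℕ) ≠ b := fun h => hne (Fin.ext h)
    rcases Nat.lt_or_gt_of_ne hne' with h | h
    · have h1 := hmono (a + 1) b h b.2.le
      have h2 := hc2 a
      have h3 := hc1 b
      linarith
    · have h1 := hmono (b + 1) a h a.2.le
      have h2 := hc2 b
      have h3 := hc1 a
      linarith
  have hcard : (Finset.univ.image c).card ≤ g.roots.toFinset.card := by
    apply Finset.card_le_card
    intro z hz
    obtain ⟨j, _, rfl⟩ := Finset.mem_image.1 hz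
    rw [Multiset.mem_toFinset, mem_roots hg]
    exact hc3 j
  rw [Finset.card_image_of_injective _ hinj, Finset.card_univ, Fintype.card_fin] at hcard
  exact hcard.trans ((Multiset.toFinset_card_le _).trans (card_roots' g))

/-- For all reals `1 < s < t`, the polynomials with coefficients in `{0, 1} ∪ ℚ_{≥ 2}` under the
pointwise order on `[s, t]` are not universal for countable preorders. -/
theorem result (s t : ℝ) (hs : 1 < s) (hst : s < t) : ¬ Universal s t := by
  intro huniv
  have : Countable (WithTop (Finset ℕ)) := inferInstanceAs (Countable (Option (Finset ℕ)))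
  obtain ⟨f, hf⟩ := huniv (WithTop (Finset ℕ))
  set u := f ⊤ with hu
  obtain ⟨D0, hD0⟩ := pow_unbounded_of_one_lt (u.1.eval s) hs
  set D := D0 + 1 with hDdef
  have hD : u.1.eval s < s ^ D := by
    refine hD0.trans_le ?_
    exact pow_le_pow_right₀ hs.le (by omega)
  have hdeg : ∀ A : Finset ℕ, (f (A : WithTop (Finset ℕ))).1.natDegree < D := by
    intro A
    apply natDegree_lt s t hs hst u D hD (by omega)
    rw [hu, ← hf]
    exact le_top
  -- the values of the embedding
  set F : Finset ℕ → ℝ[X] := fun A => (f (A : WithTop (Finset ℕ))).1 with hF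
  have hle : ∀ A B : Finset ℕ, A ⊆ B → ∀ x ∈ Set.Icc s t, (F A).eval x ≤ (F B).eval x := by
    intro A B hAB
    have h1 : ((A : WithTop (Finset ℕ))) ≤ (B : WithTop (Finset ℕ)) := WithTop.coe_le_coe.2 hAB
    exact (hf _ _).1 h1
  have hpt : ∀ i : Fin (D + 1), ∃ x ∈ Set.Icc s t,
      (F ((Finset.range (D + 1)).erase i)).eval x < (F {(i : ℕ)}).eval x := by
    intro i
    have h1 : ¬ (({(i : ℕ)} : Finset ℕ) : WithTop (Finset ℕ)) ≤
        (((Finset.range (D + 1)).erase i : Finset ℕ) : WithTop (Finset ℕ)) := by
      rw [WithTop.coe_le_coe]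
      intro h
      have := h (Finset.mem_singleton_self _)
      simp at this
    rw [hf] at h1
    unfold LeP at h1
    push Not at h1
    obtain ⟨x, hx, hlt⟩ := h1
    exact ⟨x, hx, hlt⟩
  choose x hx hxlt using hpt
  -- at `x i` sets containing `i` are above sets not containing `i`
  have hsep : ∀ (i : Fin (D + 1)) (A B : Finset ℕ), (i : ℕ) ∈ A → (i : ℕ) ∉ B →
      B ⊆ Finset.range (D + 1) → (F B).eval (x i) < (F A).eval (x i) := by
    intro i A B hA hB hBr
    have h1 := hle {(i : ℕ)} A (by simpa using hA) (x i) (hx i)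
    have h2 := hle B ((Finset.range (D + 1)).erase i) (by
      intro b hb
      rw [Finset.mem_erase]
      refine ⟨?_, hBr hb⟩
      rintro rfl
      exact hB hb) (x i) (hx i)
    have h3 := hxlt i
    linarith
  have hinj : Function.Injective x := by
    intro i k hik
    by_contra hne
    have hne' : (i : ℕ) ≠ k := fun h => hne (Fin.ext h)
    have h1 := hsep i {(i : ℕ)} {(k : ℕ)} (by simp) (by simpa using hne') (by
      intro a ha
      rw [Finset.mem_singleton] at ha
      subst ha
      exact Finset.mem_range.2 k.2)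
    have h2 := hsep k {(k : ℕ)} {(i : ℕ)} (by simp) (by simpa using hne'.symm) (by
      intro a ha
      rw [Finset.mem_singleton] at ha
      subst ha
      exact Finset.mem_range.2 i.2)
    rw [hik] at h1
    linarith
  set σ := Tuple.sort x with hσ
  have hmono : Monotone (x ∘ σ) := Tuple.monotone_sort x
  have hstrict : StrictMono (x ∘ σ) := hmono.strictMono_of_injective (hinj.comp σ.injective)
  -- positions of even and odd rank
  set A : Finset ℕ := (Finset.univ.filter (fun j : Fin (D + 1) => (j : ℕ) % 2 = 0)).image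
    (fun j => ((σ j : Fin (D + 1)) : ℕ)) with hA
  set B : Finset ℕ := (Finset.univ.filter (fun j : Fin (D + 1) => (j : ℕ) % 2 = 1)).image
    (fun j => ((σ j : Fin (D + 1)) : ℕ)) with hB
  have hAmem : ∀ j : Fin (D + 1), ((σ j : Fin (D + 1)) : ℕ) ∈ A ↔ (j : ℕ) % 2 = 0 := by
    intro j
    rw [hA, Finset.mem_image]
    constructor
    · rintro ⟨k, hk, hkj⟩
      have : k = j := σ.injective (Fin.ext hkj)
      subst this
      exact (Finset.mem_filter.1 hk).2
    · intro h
      exact ⟨j, Finset.mem_filter.2 ⟨Finset.mem_univ _, h⟩, rfl⟩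
  have hBmem : ∀ j : Fin (D + 1), ((σ j : Fin (D + 1)) : ℕ) ∈ B ↔ (j : ℕ) % 2 = 1 := by
    intro j
    rw [hB, Finset.mem_image]
    constructor
    · rintro ⟨k, hk, hkj⟩
      have : k = j := σ.injective (Fin.ext hkj)
      subst this
      exact (Finset.mem_filter.1 hk).2
    · intro h
      exact ⟨j, Finset.mem_filter.2 ⟨Finset.mem_univ _, h⟩, rfl⟩
  have hAr : A ⊆ Finset.range (D + 1) := by
    intro a ha
    rw [hA, Finset.mem_image] at ha
    obtain ⟨k, _, rfl⟩ := ha
    exact Finset.mem_range.2 (σ k).2
  have hBr : B ⊆ Finset.range (D + 1) := by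
    intro a ha
    rw [hB, Finset.mem_image] at ha
    obtain ⟨k, _, rfl⟩ := ha
    exact Finset.mem_range.2 (σ k).2
  have hkey : D ≤ (F A - F B).natDegree := by
    refine degree_of_alternating (F A - F B) D
      (fun j => if h : j < D + 1 then x (σ ⟨j, h⟩) else 0) ?_ ?_
    · intro j hj
      have h1 : j < D + 1 := by omega
      have h2 : j + 1 < D + 1 := by omega
      simp only [h1, h2, dif_pos]
      apply hstrict
      rw [Fin.mk_lt_mk]
      omega
    · intro j hj
      have h1 : j < D + 1 := by omega
      simp only [h1, dif_pos, eval_sub]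
      rcases Nat.mod_two_eq_zero_or_one j with h | h
      · have h3 := hsep (σ ⟨j, h1⟩) A B ((hAmem ⟨j, h1⟩).2 h) (by
          rw [hBmem ⟨j, h1⟩]
          simp only
          omega) hBr
        rw [Even.neg_one_pow (Nat.even_iff.2 h)]
        linarith
      · have h3 := hsep (σ ⟨j, h1⟩) B A ((hBmem ⟨j, h1⟩).2 h) (by
          rw [hAmem ⟨j, h1⟩]
          simp only
          omega) hAr
        rw [Odd.neg_one_pow (Nat.odd_iff.2 h)]
        linarith
  have h1 : (F A - F B).natDegree ≤ max (F A).natDegree (F B).natDegree := natDegree_sub_le _ _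
  have h2 := hdeg A
  have h3 := hdeg B
  have h4 : max (F A).natDegree (F B).natDegree < D := max_lt h2 h3
  omega

end Pool.Agent.Results.MP_387adc_co.NotUniversal
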